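import Pool.Agent.W346.LP.SW

/-! # LP-EX: the exit is on the expected side, exponential tail -/

open MeasureTheory ProbabilityTheory Pool.Agent.W533.LP

namespace Pool.Agent.W346.LP

theorem geo_sub {Ω ι ι' : Type} [MeasurableSpace Ω] {μ : Measure Ω} {p : ι → ℝ}
    {X : ι → Ω → ℕ} (h : GeoFam μ p X) (g : ι' → ι) (hg : Function.Injective g) :
    GeoFam μ (fun i => p (g i)) (fun i => X (g i)) where
  prob := h.prob
  pos := fun i => h.pos (g i)
  meas := fun i => h.meas (g i)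
  indep := h.indep.precomp hg
  law := fun i k => h.law (g i) k

theorem Gr_zero_row {Ω : Type} (I J : ℕ → Ω → ℕ) (W : ℕ → ℕ → Ω → ℕ) (m : ℕ) (ω : Ω) :
    Gr I J W m 0 ω = ∑ i : Fin m, I i ω := by
  rw [Fin.sum_univ_eq_sum_range (fun i => I i ω) m]
  unfold Gr
  induction m with
  | zero => simp [G]
  | succ m ih => rw [G, ih, Finset.sum_range_succ]

theorem Gr_split (hM : AMeas) {Ω : Type} (I J : ℕ → Ω → ℕ) (W : ℕ → ℕ → Ω → ℕ) (m n : ℕ)
    (ω : Ω) :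
    Gr I J W m n ω = ∑ i : Fin m, I i ω + ∑ j : Fin n, Einc I J W m j ω := by
  rw [Fin.sum_univ_eq_sum_range (fun j => Einc I J W m j ω) n]
  induction n with
  | zero => rw [Gr_zero_row, Finset.sum_range_zero, add_zero]
  | succ n ih =>
    rw [Finset.sum_range_succ, ← add_assoc, ← ih]
    have h1 : Gr I J W m n ω ≤ Gr I J W m (n + 1) ω := (hM.2.2 _ _ _ m n).2
    unfold Einc
    omega

/-- Chernoff bounds for `G` -/
theorem G_chern (hB : PBurke) (hCh : PChern) (hM : AMeas) (A : ℝ) (hA : A < 1) :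
    ∃ c : ℝ, 0 < c ∧ ∀ {Ω : Type} [MeasurableSpace Ω] (μ : Measure Ω) (q a : ℝ)
    (I J : ℕ → Ω → ℕ) (W : ℕ → ℕ → Ω → ℕ) (m n : ℕ) (x : ℝ), 0 < q → q < a → a ≤ A →
    q / a ≤ A → 1 ≤ m → 1 ≤ n → 0 ≤ x → x ≤ m → x ≤ n → (m : ℝ) ≤ 2 * n →
    Sys0 μ q a I J W →
    μ.real {ω | (m * mean a + n * mean (q / a)) + 2 * x ≤ (Gr I J W m n ω : ℝ)} ≤
      2 * Real.exp (-c * x ^ 2 / n) ∧
    μ.real {ω | (Gr I J W m n ω : ℝ) ≤ (m * mean a + n * mean (q / a)) - 2 * x} ≤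
      2 * Real.exp (-c * x ^ 2 / n) := by
  obtain ⟨c, hc, h⟩ := hCh A hA
  refine ⟨c / 2, by positivity, ?_⟩
  intro Ω _ μ q a I J W m n x h0 h1 h2 h3 hm hn hx hxm hxn hmn hs
  have := (sys_meas hs).1
  have g1 : GeoFam μ (fun _ : Fin m => a) (fun i : Fin m => I i) :=
    geo_sub (h := (hs : GeoFam μ _ _)) (fun i : Fin m => Sum.inl (i : ℕ)) (by
      intro i j hij
      exact Fin.ext (Sum.inl_injective hij))
  have g2 : GeoFam μ (fun _ : Fin n => q / a) (fun j : Fin n => Einc I J W m j) :=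
    geo_sub (h := hB μ q a I J W _ _ h0 h1 (by linarith) hs m n)
      (fun j : Fin n => Sum.inr (Sum.inl j)) (by
      intro i j hij
      exact Sum.inl_injective (Sum.inr_injective hij))
  obtain ⟨u1, u2⟩ := h μ a m (fun i => I i) x hm hx hxm h2 g1
  obtain ⟨w1, w2⟩ := h μ (q / a) n (fun j => Einc I J W m j) x hn hx hxn h3 g2
  have hnR : (0 : ℝ) < n := by exact_mod_cast hn
  have hmR : (0 : ℝ) < m := by exact_mod_cast hm
  have b1 : Real.exp (-c * x ^ 2 / m) ≤ Real.exp (-(c / 2) * x ^ 2 / n) := by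
    apply Real.exp_le_exp.2
    rw [div_le_div_iff₀ hmR hnR]
    have : 0 ≤ c * x ^ 2 := by positivity
    nlinarith
  have b2 : Real.exp (-c * x ^ 2 / n) ≤ Real.exp (-(c / 2) * x ^ 2 / n) := by
    apply Real.exp_le_exp.2
    rw [div_le_div_iff₀ hnR hnR]
    have : 0 ≤ c * x ^ 2 := by positivity
    nlinarith
  have hsplit : ∀ ω, (Gr I J W m n ω : ℝ) =
      ∑ i : Fin m, (I i ω : ℝ) + ∑ j : Fin n, (Einc I J W m j ω : ℝ) := by
    intro ω
    rw [Gr_split hM]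
    push_cast
    rfl
  constructor
  · refine (measureReal_mono (s₂ := {ω | m * mean a + x ≤ ∑ i : Fin m, (I i ω : ℝ)} ∪
      {ω | n * mean (q / a) + x ≤ ∑ j : Fin n, (Einc I J W m j ω : ℝ)}) ?_
      (measure_ne_top _ _)).trans ((measureReal_union_le _ _).trans ?_)
    · intro ω hω
      have hω' : (m * mean a + n * mean (q / a)) + 2 * x ≤ (Gr I J W m n ω : ℝ) := hω
      rw [hsplit] at hω'
      by_contra hcon
      have c1 : ¬ (m * mean a + x ≤ ∑ i : Fin m, (I i ω : ℝ)) := fun h => hcon (Or.inl h)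
      have c2 : ¬ (n * mean (q / a) + x ≤ ∑ j : Fin n, (Einc I J W m j ω : ℝ)) :=
        fun h => hcon (Or.inr h)
      linarith
    · linarith
  · refine (measureReal_mono (s₂ := {ω | ∑ i : Fin m, (I i ω : ℝ) ≤ m * mean a - x} ∪
      {ω | ∑ j : Fin n, (Einc I J W m j ω : ℝ) ≤ n * mean (q / a) - x}) ?_
      (measure_ne_top _ _)).trans ((measureReal_union_le _ _).trans ?_)
    · intro ω hω
      have hω' : (Gr I J W m n ω : ℝ) ≤ (m * mean a + n * mean (q / a)) - 2 * x := hω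
      rw [hsplit] at hω'
      by_contra hcon
      have c1 : ¬ (∑ i : Fin m, (I i ω : ℝ) ≤ m * mean a - x) := fun h => hcon (Or.inl h)
      have c2 : ¬ (∑ j : Fin n, (Einc I J W m j ω : ℝ) ≤ n * mean (q / a) - x) :=
        fun h => hcon (Or.inr h)
      linarith
    · linarith

theorem part1e (hB : PBurke) (hCh : PChern) (hC : PCouple) (hL : ALaw) (hMax : DMax)
    (hMono : DMono) (hM : AMeas) (q : ℝ) (h0 : 0 < q) (h1 : q < 1) : ∃ C : ℝ, 2 ≤ C ∧
    ∀ {Ω : Type} [MeasurableSpace Ω]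
    (μ : Measure Ω) (δ : ℝ) (I J : ℕ → Ω → ℕ) (W : ℕ → ℕ → Ω → ℕ) (m n : ℕ),
    0 < δ → δ ≤ 2 * dd q → 1 ≤ n → n ≤ 2 * m → m ≤ 2 * n → C * |(m : ℝ) - n| ≤ n * δ →
    Sys0 μ q (Real.sqrt q + δ) I J W →
    μ.real {ω | Gr I zr W m n ω < Gr zr J W m n ω} ≤ C * Real.exp (-(δ ^ 4 * n) / C) := by
  obtain ⟨t0, t1, t2, t3, t4, t5, t6⟩ := sq_facts h0 h1
  obtain ⟨c, hc, hG⟩ := G_chern hB hCh hM ((1 + Real.sqrt q) / 2) (by linarith)
  refine ⟨max 4 (64 / c), le_trans (by norm_num) (le_max_left _ _), ?_⟩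
  intro Ω _ μ δ I J W m n hd hd2 hn hnm hmn hmn2 hs
  set C := max 4 (64 / c) with hCdef
  have hC4 : 4 ≤ C := le_max_left _ _
  have hCc : 64 / c ≤ C := le_max_right _ _
  have hnR : (0 : ℝ) < n := by exact_mod_cast hn
  have hab : 0 ≤ |(m : ℝ) - n| := abs_nonneg _
  have hmn3 : 2 * |(m : ℝ) - n| ≤ n * δ := by nlinarith
  obtain ⟨Ω', i1, μ', I₁, J₁, I₂, J₂, W', s1, s2, hle⟩ := ev_couple hC hL hMax hMono hM μ q
    (Real.sqrt q) (Real.sqrt q + δ) I J W h0 t2 (by linarith) (by linarith) hs m n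
  refine hle.trans ?_
  have := (sys_meas s2).1
  have hgap := mean_gap (m := m) (n := n) h0 h1 hd hd2 hnR.le hmn3
  have hm1 : 1 ≤ m := by omega
  have hd1 : δ < 1 := by linarith
  have hd3 : δ ^ 2 ≤ 1 := by nlinarith
  set x : ℝ := n * δ ^ 2 / 8 with hx
  have hx0 : 0 ≤ x := by positivity
  have hxn : x ≤ n := by rw [hx]; nlinarith
  have hnm' : (n : ℝ) ≤ 2 * m := by exact_mod_cast hnm
  have hmn' : (m : ℝ) ≤ 2 * n := by exact_mod_cast hmn
  have hxm : x ≤ m := by rw [hx]; nlinarith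
  have hqt : q / Real.sqrt q = Real.sqrt q := by
    rw [div_eq_iff t0.ne', t3]
  have hqa : q / (Real.sqrt q + δ) ≤ (1 + Real.sqrt q) / 2 := by
    rw [div_le_iff₀ (by linarith)]
    nlinarith
  obtain ⟨u1, -⟩ := hG μ' q (Real.sqrt q) I₁ J₁ W' m n x h0 t2 (by linarith)
    (by rw [hqt]; linarith) hm1 hn hx0 hxm hxn hmn' s1
  obtain ⟨-, u2⟩ := hG μ' q (Real.sqrt q + δ) I₂ J₂ W' m n x h0 (by linarith) (by linarith)
    hqa hm1 hn hx0 hxm hxn hmn' s2
  have hexp : Real.exp (-c * x ^ 2 / n) ≤ Real.exp (-(δ ^ 4 * n) / C) := by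
    apply Real.exp_le_exp.2
    have e : -c * x ^ 2 / n = -(δ ^ 4 * n) / (64 / c) := by
      rw [hx]
      field_simp
      ring
    rw [e, neg_div, neg_div, neg_le_neg_iff]
    exact div_le_div_of_nonneg_left (by positivity) (by positivity) hCc
  refine (measureReal_mono (s₂ := {ω | (m * mean (Real.sqrt q) + n * mean (q / Real.sqrt q)) +
      2 * x ≤ (Gr I₁ J₁ W' m n ω : ℝ)} ∪ {ω | (Gr I₂ J₂ W' m n ω : ℝ) ≤
      (m * mean (Real.sqrt q + δ) + n * mean (q / (Real.sqrt q + δ))) - 2 * x}) ?_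
      (measure_ne_top _ _)).trans ((measureReal_union_le _ _).trans ?_)
  · intro ω hω
    have hω' : (Gr I₂ J₂ W' m n ω : ℝ) ≤ Gr I₁ J₁ W' m n ω := Nat.cast_le.2 hω
    by_contra hcon
    have c1 : ¬ ((m * mean (Real.sqrt q) + n * mean (q / Real.sqrt q)) +
      2 * x ≤ (Gr I₁ J₁ W' m n ω : ℝ)) := fun h => hcon (Or.inl h)
    have c2 : ¬ ((Gr I₂ J₂ W' m n ω : ℝ) ≤
      (m * mean (Real.sqrt q + δ) + n * mean (q / (Real.sqrt q + δ))) - 2 * x) :=
      fun h => hcon (Or.inr h)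
    linarith
  · have hpos := Real.exp_pos (-(δ ^ 4 * n) / C)
    calc _ ≤ 2 * Real.exp (-c * x ^ 2 / n) + 2 * Real.exp (-c * x ^ 2 / n) := add_le_add u1 u2
      _ = 4 * Real.exp (-c * x ^ 2 / n) := by ring
      _ ≤ C * Real.exp (-(δ ^ 4 * n) / C) :=
        mul_le_mul hC4 hexp (Real.exp_pos _).le (by linarith)

theorem pEX (hB : PBurke) (hCh : PChern) (hC : PCouple) (hL : ALaw) (hMax : DMax)
    (hMono : DMono) (hT : DTransp) (hM : AMeas) (hO : AOps) : PEX := by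
  intro q h0 h1
  obtain ⟨C, hC1, hp⟩ := part1e hB hCh hC hL hMax hMono hM q h0 h1
  obtain ⟨t0, t1, t2, t3, t4, t5, t6⟩ := sq_facts h0 h1
  refine ⟨2 * C, by linarith, ?_⟩
  intro Ω _ μ δ I J W m n hd hd2 hn hnm hmn hmn2
  have hnR : (0 : ℝ) < n := by exact_mod_cast hn
  have hab : 0 ≤ |(m : ℝ) - n| := abs_nonneg _
  have hC0 : 0 < C := by linarith
  have fin : ∀ y : ℝ, δ ^ 4 * n ≤ 2 * y → C * Real.exp (-y / C) ≤
      2 * C * Real.exp (-(δ ^ 4 * n) / (2 * C)) := by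
    intro y hy
    refine mul_le_mul (by linarith) (Real.exp_le_exp.2 ?_) (Real.exp_pos _).le (by positivity)
    rw [div_le_div_iff₀ hC0 (by positivity)]
    nlinarith
  constructor
  · intro hs
    refine (hp μ δ I J W m n hd (by linarith) hn hnm hmn (by nlinarith) hs).trans (fin _ ?_)
    have : 0 ≤ δ ^ 4 * n := by positivity
    linarith
  · intro hs
    obtain ⟨d', g1, g2, g3, g4⟩ := transp hO hT μ q δ I J W h0 h1 hd hd2 hs m n
    rw [g4]
    have hmR : (n : ℝ) ≤ 2 * m := by exact_mod_cast hnm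
    have hm1 : 1 ≤ m := by omega
    have hd' : 0 < d' := hd.trans_le g1
    refine (hp μ d' J I (fun i j => W j i) n m hd' g2 hm1 hmn hnm ?_ g3).trans (fin _ ?_)
    · rw [abs_sub_comm]
      have : n * δ ≤ 2 * m * d' := mul_le_mul hmR g1 hd.le (by positivity)
      linarith
    · have k1 : δ ^ 4 ≤ d' ^ 4 := pow_le_pow_left₀ hd.le g1 4
      have k2 : δ ^ 4 * n ≤ d' ^ 4 * (2 * m) := mul_le_mul k1 hmR hnR.le (by positivity)
      linarith

end Pool.Agent.W346.LP
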