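import Pool.Agent.W533.LP.Stm
import Pool.Agent.W533.LP.Stm3

/-! # LP-SW and LP-EX: the exit is on the expected side -/

open MeasureTheory ProbabilityTheory Pool.Agent.W533.LP

namespace Pool.Agent.W346.LP

/-! ### numbers -/

theorem sq_facts {q : ℝ} (h0 : 0 < q) (h1 : q < 1) :
    0 < Real.sqrt q ∧ Real.sqrt q < 1 ∧ q < Real.sqrt q ∧ Real.sqrt q * Real.sqrt q = q ∧
      0 < dd q ∧ 4 * dd q ≤ Real.sqrt q - q ∧ 4 * dd q ≤ 1 - Real.sqrt q := by
  have a1 : 0 < Real.sqrt q := Real.sqrt_pos.2 h0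
  have a2 : Real.sqrt q * Real.sqrt q = q := Real.mul_self_sqrt h0.le
  have a3 : Real.sqrt q < 1 := by nlinarith
  have a4 : q < Real.sqrt q := by nlinarith
  refine ⟨a1, a3, a4, a2, ?_, ?_, ?_⟩
  · unfold dd
    have : 0 < min (Real.sqrt q - q) (1 - Real.sqrt q) := lt_min (by linarith) (by linarith)
    linarith
  · unfold dd
    have := min_le_left (Real.sqrt q - q) (1 - Real.sqrt q)
    linarith
  · unfold dd
    have := min_le_right (Real.sqrt q - q) (1 - Real.sqrt q)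
    linarith

/-- the difference of the means -/
theorem mean_gap {q d m n : ℝ} (h0 : 0 < q) (h1 : q < 1) (hd : 0 < d) (hd2 : d ≤ 2 * dd q)
    (hn : 0 ≤ n) (hmn : 2 * |m - n| ≤ n * d) :
    n * d ^ 2 / 2 ≤ (m * mean (Real.sqrt q + d) + n * mean (q / (Real.sqrt q + d))) -
      (m * mean (Real.sqrt q) + n * mean (q / Real.sqrt q)) := by
  obtain ⟨t0, t1, t2, t3, t4, t5, t6⟩ := sq_facts h0 h1
  set t := Real.sqrt q with ht
  have e1 : 0 < 1 - t := by linarith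
  have e2 : 0 < 1 - (t + d) := by linarith
  have e3 : 0 < t + d - q := by linarith
  have e4 : 0 < t - q := by linarith
  have e5 : t + d ≠ 0 := by linarith
  have e6 : t ≠ 0 := by linarith
  have k1 : mean (q / (t + d)) = q / (t + d - q) := by
    unfold mean
    have : 1 - q / (t + d) = (t + d - q) / (t + d) := by
      field_simp
    rw [this, div_div_div_cancel_right₀ e5]
  have k2 : mean (q / t) = t / (1 - t) := by
    have : q / t = t := by rw [← t3]; field_simp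
    rw [this]
    rfl
  have key : (m * mean (t + d) + n * mean (q / (t + d))) - (m * mean t + n * mean (q / t)) =
      d / ((1 - t) * (1 - (t + d))) * ((m - n) + n * (1 + t) * d / (t + d - q)) := by
    rw [k1, k2]
    unfold mean
    have hq : q = t * t := t3.symm
    have e3' : t + d - t * t ≠ 0 := by rw [← hq]; exact e3.ne'
    rw [hq]
    obtain ⟨s, hs⟩ : ∃ s, s = t + d - t * t := ⟨_, rfl⟩
    rw [← hs] at e3' ⊢
    have e1' : 1 - t ≠ 0 := e1.ne'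
    have e2' : 1 - (t + d) ≠ 0 := e2.ne'
    field_simp
    rw [hs]
    ring
  rw [key]
  have f1 : n * d ≤ n * (1 + t) * d / (t + d - q) := by
    rw [le_div_iff₀ e3]
    have : 0 ≤ n * d := by positivity
    nlinarith
  have f2 : -(n * d / 2) ≤ m - n := by
    have := neg_abs_le (m - n)
    linarith
  have f3 : n * d / 2 ≤ (m - n) + n * (1 + t) * d / (t + d - q) := by linarith
  have f4 : d ≤ d / ((1 - t) * (1 - (t + d))) := by
    rw [le_div_iff₀ (by positivity)]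
    have : (1 - t) * (1 - (t + d)) ≤ 1 := by nlinarith
    nlinarith
  calc n * d ^ 2 / 2 = d * (n * d / 2) := by ring
    _ ≤ _ := mul_le_mul f4 f3 (by positivity) (hd.le.trans f4)

/-! ### the inclusion -/

theorem ev_sub (hMax : DMax) (hMono : DMono) (I J I' J' : ℕ → ℕ) (W : ℕ → ℕ → ℕ)
    (hJ : ∀ i, J' i ≤ J i) (m n : ℕ)
    (h : G I' zero W m n < G zero J' W m n) : G I' J' W m n ≤ G I J W m n := by
  rw [hMax I' J', max_eq_right h.le]
  refine (hMono zero zero J' J W W (fun _ => le_rfl)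
    (fun k => Finset.sum_le_sum fun i _ => hJ i) (fun _ _ => le_rfl) m n).trans ?_
  exact hMono zero I J J W W (fun k => Finset.sum_le_sum fun i _ => Nat.zero_le _)
    (fun _ => le_rfl) (fun _ _ => le_rfl) m n

theorem sys_meas {Ω : Type} [MeasurableSpace Ω] {μ : Measure Ω} {q a : ℝ} {I J : ℕ → Ω → ℕ}
    {W : ℕ → ℕ → Ω → ℕ} (h : Sys0 μ q a I J W) :
    IsProbabilityMeasure μ ∧ (∀ i, Measurable (I i)) ∧ (∀ i, Measurable (J i)) ∧
      ∀ i j, Measurable (W i j) := by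
  have h' : GeoFam μ _ _ := h
  refine ⟨h'.prob, fun i => h'.meas (Sum.inl i), fun i => h'.meas (Sum.inr (Sum.inl i)),
    fun i j => h'.meas (Sum.inr (Sum.inr (Sum.inl (i, j))))⟩

theorem zr_meas {Ω : Type} [MeasurableSpace Ω] (i : ℕ) : Measurable (zr i : Ω → ℕ) :=
  measurable_const

/-- the law of an event -/
theorem law_event (hL : ALaw) {Ω Ω' : Type} [MeasurableSpace Ω] [MeasurableSpace Ω']
    (μ : Measure Ω) (μ' : Measure Ω') (q a : ℝ) (I J : ℕ → Ω → ℕ) (W : ℕ → ℕ → Ω → ℕ)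
    (I' J' : ℕ → Ω' → ℕ) (W' : ℕ → ℕ → Ω' → ℕ) (h : Sys0 μ q a I J W)
    (h' : Sys0 μ' q a I' J' W') (S : Set ((ℕ → ℕ) × (ℕ → ℕ) × (ℕ → ℕ → ℕ)))
    (hS : MeasurableSet S) :
    μ.real {ω | ((fun i => I i ω), (fun j => J j ω), (fun i j => W i j ω)) ∈ S} =
      μ'.real {ω | ((fun i => I' i ω), (fun j => J' j ω), (fun i j => W' i j ω)) ∈ S} := by
  classical
  have hF : Measurable (fun z : (ℕ → ℕ) × (ℕ → ℕ) × (ℕ → ℕ → ℕ) × (Empty → ℕ) =>
      S.indicator (fun _ => (1 : ℝ)) (z.1, z.2.1, z.2.2.1)) := by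
    have h1 : Measurable (S.indicator (fun _ => (1 : ℝ))) := measurable_const.indicator hS
    exact h1.comp (by fun_prop)
  have key := hL μ μ' q a I J W I' J' W' (fun _ : Empty => (0 : ℝ)) (fun _ _ => 0)
    (fun _ _ => 0) h h' _ hF
  have k2 := key.measure_mem_eq (s := {1}) (measurableSet_singleton 1)
  have e1 : ∀ x : (ℕ → ℕ) × (ℕ → ℕ) × (ℕ → ℕ → ℕ),
      S.indicator (fun _ => (1 : ℝ)) x ∈ ({1} : Set ℝ) ↔ x ∈ S := by
    intro x
    by_cases hx : x ∈ S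
    · simp [hx]
    · simp [hx]
  unfold Measure.real
  congr 1
  have s1 : {ω | ((fun i => I i ω), (fun j => J j ω), (fun i j => W i j ω)) ∈ S} =
      (fun ω => S.indicator (fun _ => (1 : ℝ))
        ((fun i => I i ω), (fun j => J j ω), (fun i j => W i j ω))) ⁻¹' {1} := by
    ext ω
    exact (e1 _).symm
  have s2 : {ω | ((fun i => I' i ω), (fun j => J' j ω), (fun i j => W' i j ω)) ∈ S} =
      (fun ω => S.indicator (fun _ => (1 : ℝ))
        ((fun i => I' i ω), (fun j => J' j ω), (fun i j => W' i j ω))) ⁻¹' {1} := by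
    ext ω
    exact (e1 _).symm
  rw [s1, s2]
  exact k2

/-- the set of the event -/
theorem ev_set_meas (hM : AMeas) (m n : ℕ) :
    MeasurableSet {z : (ℕ → ℕ) × (ℕ → ℕ) × (ℕ → ℕ → ℕ) |
      G z.1 zero z.2.2 m n < G zero z.2.1 z.2.2 m n} := by
  have h1 : Measurable (fun z : (ℕ → ℕ) × (ℕ → ℕ) × (ℕ → ℕ → ℕ) => G z.1 zero z.2.2 m n) :=
    (hM.1 m n).comp (f := fun z : (ℕ → ℕ) × (ℕ → ℕ) × (ℕ → ℕ → ℕ) => (z.1, zero, z.2.2))
      (by fun_prop)
  have h2 : Measurable (fun z : (ℕ → ℕ) × (ℕ → ℕ) × (ℕ → ℕ → ℕ) => G zero z.2.1 z.2.2 m n) :=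
    (hM.1 m n).comp (f := fun z : (ℕ → ℕ) × (ℕ → ℕ) × (ℕ → ℕ → ℕ) => (zero, z.2.1, z.2.2))
      (by fun_prop)
  exact measurableSet_lt h1 h2

/-- comparison with the coupled pair of systems -/
theorem ev_couple (hC : PCouple) (hL : ALaw) (hMax : DMax) (hMono : DMono) (hM : AMeas)
    {Ω : Type} [MeasurableSpace Ω] (μ : Measure Ω) (q t a : ℝ) (I J : ℕ → Ω → ℕ)
    (W : ℕ → ℕ → Ω → ℕ) (h0 : 0 < q) (h1 : q < t) (h2 : t ≤ a) (h3 : a < 1)
    (h : Sys0 μ q a I J W) (m n : ℕ) :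
    ∃ (Ω' : Type) (_ : MeasurableSpace Ω') (μ' : Measure Ω') (I₁ J₁ I₂ J₂ : ℕ → Ω' → ℕ)
      (W' : ℕ → ℕ → Ω' → ℕ), Sys0 μ' q t I₁ J₁ W' ∧ Sys0 μ' q a I₂ J₂ W' ∧
      μ.real {ω | Gr I zr W m n ω < Gr zr J W m n ω} ≤
        μ'.real {ω | Gr I₂ J₂ W' m n ω ≤ Gr I₁ J₁ W' m n ω} := by
  obtain ⟨Ω', i1, μ', I₁, J₁, I₂, J₂, W', s1, s2, hle⟩ := hC q t a h0 h1 h2 h3
  refine ⟨Ω', i1, μ', I₁, J₁, I₂, J₂, W', s1, s2, ?_⟩
  have e := law_event hL μ μ' q a I J W I₂ J₂ W' h s2 _ (ev_set_meas hM m n)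
  have e' : μ.real {ω | Gr I zr W m n ω < Gr zr J W m n ω} =
      μ'.real {ω | Gr I₂ zr W' m n ω < Gr zr J₂ W' m n ω} := e
  rw [e']
  have := (sys_meas s2).1
  refine measureReal_mono ?_ (measure_ne_top _ _)
  intro ω hω
  exact ev_sub hMax hMono _ _ _ _ _ (fun i => (hle i ω).2) m n hω

/-! ### transposition -/

theorem transp (hO : AOps) (hT : DTransp) {Ω : Type} [MeasurableSpace Ω] (μ : Measure Ω)
    (q d : ℝ) (I J : ℕ → Ω → ℕ) (W : ℕ → ℕ → Ω → ℕ) (h0 : 0 < q) (h1 : q < 1) (hd : 0 < d)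
    (hd2 : d ≤ dd q) (h : Sys0 μ q (Real.sqrt q - d) I J W) (m n : ℕ) :
    ∃ d' : ℝ, d ≤ d' ∧ d' ≤ 2 * dd q ∧ Sys0 μ q (Real.sqrt q + d') J I (fun i j => W j i) ∧
      {ω | Gr zr J W m n ω < Gr I zr W m n ω} =
        {ω | Gr J zr (fun i j => W j i) n m ω < Gr zr I (fun i j => W j i) n m ω} := by
  obtain ⟨t0, t1, t2, t3, t4, t5, t6⟩ := sq_facts h0 h1
  set t := Real.sqrt q with ht
  have hq : q = t * t := t3.symm
  have e1 : 0 < t - d := by linarith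
  have e2 : 3 / 4 * t ≤ t - d := by linarith
  refine ⟨t * d / (t - d), ?_, ?_, ?_, ?_⟩
  · rw [le_div_iff₀ e1]
    nlinarith
  · rw [div_le_iff₀ e1]
    nlinarith
  · have e3 : t + t * d / (t - d) = q / (t - d) := by
      rw [hq]
      field_simp
      ring
    rw [e3]
    exact (hO μ q).2.1 (t - d) I J W h0 (by linarith) (by linarith) h
  · ext ω
    have a1 : Gr zr J W m n ω = Gr J zr (fun i j => W j i) n m ω := hT _ _ _ _ _
    have a2 : Gr I zr W m n ω = Gr zr I (fun i j => W j i) n m ω := hT _ _ _ _ _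
    show Gr zr J W m n ω < Gr I zr W m n ω ↔
      Gr J zr (fun i j => W j i) n m ω < Gr zr I (fun i j => W j i) n m ω
    rw [a1, a2]

/-! ### LP-SW -/

theorem part1 (hVB : PVB) (hV : PVarId) (hC : PCouple) (hL : ALaw) (hMax : DMax)
    (hMono : DMono) (hM : AMeas) (q : ℝ) (h0 : 0 < q) (h1 : q < 1) : ∃ C : ℝ, 1 ≤ C ∧
    ∀ {Ω : Type} [MeasurableSpace Ω]
    (μ : Measure Ω) (δ : ℝ) (I J : ℕ → Ω → ℕ) (W : ℕ → ℕ → Ω → ℕ) (m n : ℕ),
    0 < δ → δ ≤ 2 * dd q → 1 ≤ n → n ≤ 2 * m → m ≤ 2 * n → C * |(m : ℝ) - n| ≤ n * δ →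
    Sys0 μ q (Real.sqrt q + δ) I J W →
    μ.real {ω | Gr I zr W m n ω < Gr zr J W m n ω} ≤ C / (δ ^ 3 * n) := by
  obtain ⟨K, hK, hvb⟩ := hVB q h0 h1
  obtain ⟨t0, t1, t2, t3, t4, t5, t6⟩ := sq_facts h0 h1
  refine ⟨32 * K, by linarith, ?_⟩
  intro Ω _ μ δ I J W m n hd hd2 hn hnm hmn hmn2 hs
  have hnR : (0 : ℝ) < n := by exact_mod_cast hn
  have hab : 0 ≤ |(m : ℝ) - n| := abs_nonneg _
  have hmn3 : 2 * |(m : ℝ) - n| ≤ n * δ := by nlinarith
  have := (sys_meas hs).1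
  by_cases hsmall : δ ^ 3 * n ≤ 1
  · have : 1 ≤ 32 * K / (δ ^ 3 * n) := by
      rw [le_div_iff₀ (by positivity)]
      linarith
    exact measureReal_le_one.trans this
  push Not at hsmall
  obtain ⟨Ω', i1, μ', I₁, J₁, I₂, J₂, W', s1, s2, hle⟩ := ev_couple hC hL hMax hMono hM μ q
    (Real.sqrt q) (Real.sqrt q + δ) I J W h0 t2 (by linarith) (by linarith) hs m n
  refine hle.trans ?_
  have := (sys_meas s2).1
  obtain ⟨m1, E1, -, -⟩ := hV μ' q (Real.sqrt q) I₁ J₁ W' h0 t2 t1 s1 m n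
  obtain ⟨m2, E2, -, -⟩ := hV μ' q (Real.sqrt q + δ) I₂ J₂ W' h0 (by linarith) (by linarith)
    s2 m n
  have v1 := hvb μ' (Real.sqrt q) I₁ J₁ W' (by rw [sub_self, abs_zero]; linarith) s1 m n hn
    hnm hmn
  have v2 := hvb μ' (Real.sqrt q + δ) I₂ J₂ W'
    (by rw [add_sub_cancel_left, abs_of_pos hd]; exact hd2) s2 m n hn hnm hmn
  rw [sub_self, abs_zero, mul_zero, add_zero] at v1
  rw [add_sub_cancel_left, abs_of_pos hd] at v2
  have hgap := mean_gap (m := m) (n := n) h0 h1 hd hd2 hnR.le hmn3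
  rw [← E1, ← E2] at hgap
  set X : Ω' → ℝ := fun ω => (Gr I₂ J₂ W' m n ω : ℝ) with hX
  set Y : Ω' → ℝ := fun ω => (Gr I₁ J₁ W' m n ω : ℝ) with hY
  have hX2 : MemLp X 2 μ' := m2.mono_exponent (by norm_num)
  have hY2 : MemLp Y 2 μ' := m1.mono_exponent (by norm_num)
  -- the power
  have hpow : (n : ℝ) ^ (2 / 3 : ℝ) ≤ n * δ := by
    have h3 : ((n : ℝ) ^ (2 / 3 : ℝ)) ^ (3 : ℕ) ≤ (n * δ) ^ (3 : ℕ) := by
      rw [← Real.rpow_natCast, ← Real.rpow_mul hnR.le]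
      norm_num
      calc (n : ℝ) ^ 2 = n ^ 2 * 1 := (mul_one _).symm
        _ ≤ n ^ 2 * (δ ^ 3 * n) := mul_le_mul_of_nonneg_left hsmall.le (by positivity)
        _ = (n * δ) ^ 3 := by ring
    exact le_of_pow_le_pow_left₀ (by norm_num) (by positivity) h3
  have hvX : variance X μ' ≤ K * (n * δ + n * δ / 2 + n * δ) := by
    refine v2.trans (mul_le_mul_of_nonneg_left ?_ (by linarith))
    linarith
  have hvY : variance Y μ' ≤ K * (n * δ + n * δ / 2) := by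
    refine v1.trans (mul_le_mul_of_nonneg_left ?_ (by linarith))
    linarith
  have hvar : variance (X - Y) μ' ≤ 8 * K * (n * δ) := by
    have hs := variance_sub hX2 hY2
    have hadd := variance_add hX2 hY2
    have hnn := variance_nonneg (X + Y) μ'
    have hpos : 0 ≤ K * (n * δ) := by positivity
    nlinarith
  have hEm : ∫ ω, (X - Y) ω ∂μ' = (∫ ω, X ω ∂μ') - ∫ ω, Y ω ∂μ' :=
    integral_sub (hX2.integrable (by norm_num)) (hY2.integrable (by norm_num))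
  set c := (n : ℝ) * δ ^ 2 / 2 with hc
  have hc0 : 0 < c := by positivity
  have hcheb := meas_ge_le_variance_div_sq (hX2.sub hY2) hc0
  have hsub : {ω | Gr I₂ J₂ W' m n ω ≤ Gr I₁ J₁ W' m n ω} ⊆
      {ω | c ≤ |(X - Y) ω - ∫ ω, (X - Y) ω ∂μ'|} := by
    intro ω hω
    have hω' : X ω ≤ Y ω := Nat.cast_le.2 hω
    show c ≤ |X ω - Y ω - ∫ ω, (X - Y) ω ∂μ'|
    rw [hEm, abs_sub_comm]
    refine le_trans ?_ (le_abs_self _)
    linarith
  have hfin : μ'.real {ω | c ≤ |(X - Y) ω - ∫ ω, (X - Y) ω ∂μ'|} ≤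
      variance (X - Y) μ' / c ^ 2 := by
    unfold Measure.real
    refine (ENNReal.toReal_mono ENNReal.ofReal_ne_top hcheb).trans ?_
    rw [ENNReal.toReal_ofReal (div_nonneg (variance_nonneg _ _) (by positivity))]
  calc μ'.real {ω | Gr I₂ J₂ W' m n ω ≤ Gr I₁ J₁ W' m n ω}
      ≤ μ'.real {ω | c ≤ |(X - Y) ω - ∫ ω, (X - Y) ω ∂μ'|} :=
        measureReal_mono hsub (measure_ne_top _ _)
    _ ≤ variance (X - Y) μ' / c ^ 2 := hfin
    _ ≤ 8 * K * (n * δ) / c ^ 2 := by gcongr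
    _ = 32 * K / (δ ^ 3 * n) := by
      rw [hc]
      field_simp
      ring

theorem pSW (hVB : PVB) (hV : PVarId) (hC : PCouple) (hL : ALaw) (hMax : DMax)
    (hMono : DMono) (hT : DTransp) (hM : AMeas) (hO : AOps) : PSW := by
  intro q h0 h1
  obtain ⟨C, hC1, hp⟩ := part1 hVB hV hC hL hMax hMono hM q h0 h1
  obtain ⟨t0, t1, t2, t3, t4, t5, t6⟩ := sq_facts h0 h1
  refine ⟨2 * C, by linarith, ?_⟩
  intro Ω _ μ δ I J W m n hd hd2 hn hnm hmn hmn2
  have hnR : (0 : ℝ) < n := by exact_mod_cast hn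
  have hab : 0 ≤ |(m : ℝ) - n| := abs_nonneg _
  constructor
  · intro hs
    refine (hp μ δ I J W m n hd (by linarith) hn hnm hmn (by nlinarith) hs).trans ?_
    gcongr
    linarith
  · intro hs
    obtain ⟨d', g1, g2, g3, g4⟩ := transp hO hT μ q δ I J W h0 h1 hd hd2 hs m n
    rw [g4]
    have hmR : (n : ℝ) ≤ 2 * m := by exact_mod_cast hnm
    have hm1 : 1 ≤ m := by omega
    have hm0 : (0 : ℝ) < m := by exact_mod_cast hm1
    have hd' : 0 < d' := hd.trans_le g1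
    refine (hp μ d' J I (fun i j => W j i) n m hd' g2 hm1 hmn hnm ?_ g3).trans ?_
    · rw [abs_sub_comm]
      have : n * δ ≤ 2 * m * d' := mul_le_mul hmR g1 hd.le (by positivity)
      linarith
    · rw [div_le_div_iff₀ (by positivity) (by positivity)]
      have k1 : δ ^ 3 ≤ d' ^ 3 := pow_le_pow_left₀ hd.le g1 3
      have k2 : δ ^ 3 * n ≤ d' ^ 3 * (2 * m) := mul_le_mul k1 hmR hnR.le (by positivity)
      nlinarith

end Pool.Agent.W346.LP
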